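import Pool.Agent.N770.CP.Fields2

/-!
# Colmez's product formula for the CM fields with few automorphisms

`E` is a CM field, `E⁺` its maximal real subfield, `K` a CM field, Galois over `ℚ`, which contains the
conjugates of `E`.  The notions `conjugation`, `act`, `IsCMType`, `a0` (Colmez's function `a⁰_{E,ψ,Φ}`),
`heightFn` (`A_Φ = ∑_{ψ ∈ Φ} a⁰_{E,ψ,Φ}`), `avgSpan` (the span of `1` and of the sums of the `A_Φ` over
all CM types of a field, for which the formula is the averaged formula of Andreatta, Goren, Howard,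
Madapusi Pera and of Yuan, Zhang) and `abSpan` (the span of the `a⁰_{E,ψ,Φ}` of the abelian fields) are
those of the starting file `AveragedAndAbelian`.

An embedding `θ` of `E` is linked to `ψ` if `θ(E) ⊆ ψ(E) θ(E⁺)`; for `E = E⁺(√-α)` this means that
`ψ(α) θ(α)` is a square in the compositum `ψ(E⁺) θ(E⁺)`.

(1) If `E⁺` is Galois over `ℚ`, linked embeddings have the same image (`LinkedSameImage`).
(2) Suppose that linked embeddings have the same image.  Then `a⁰_{E,ψ,Φ}` is in `avgSpan` for ALL CM
types `Φ` of `E` and all `ψ` if and only if every automorphism `a` of `E` is conjugate in `Aut(E)` to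
`c a` or to all generators of the group generated by `a`; in other words, the characters of `Aut(E)` with
`χ(c) = -χ(1)` have rational values.  (Example: `Aut(E) = {1, c}`.)
(3) Under the same hypothesis `A_Φ` (Faltings heights) is in `avgSpan` for all CM types `Φ` of `E` if and
only if every automorphism `a` of `E` is conjugate to `c a` or `(c a)⁻¹`, or all generators of the group
generated by `a` are conjugate to `a` or `a⁻¹`.
(4) If `E⁺` is Galois over `ℚ` and its Galois group has exponent dividing `2` or `3` (for example if `E⁺`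
is multiquadratic), then `A_Φ` is in `avgSpan` for all CM types `Φ` of `E`.
(5) If `E⁺` is Galois over `ℚ` of prime degree, then `a⁰_{E,ψ,Φ}` is in the span of `avgSpan` and
`abSpan` for all CM types `Φ` of `E` and all `ψ`: the formula holds for all CM fields `E` whose maximal
real subfield is cyclic of prime degree over `ℚ`.

The conditions concern `E` only and not the group of `K`.  They hold if the Galois group of the closure
of `E` contains all `2 ^ [E⁺ : ℚ]` changes of signs, and are much weaker than this.

The proof.  Up to the factor `#G`, the value `a⁰_{E,ψ,Φ}(g)` is the sum over `θ ∈ Φ` of the number of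
the `η` with `η⁻¹ g η ψ = θ`.  If `θ` is not linked to `ψ`, some element of `G` fixes `ψ` and maps `θ` to
`c θ`, so that the numbers for `θ` and `c θ` are equal.  If `θ = ψ a` for an automorphism `a` of `E`, the
number is the number of the `η` with `g η ψ = η ψ a`; it only depends on the class of `a` in `Aut(E)`, and
is the number for `g ^ j` and `a ^ j`, if `j` is prime to the orders of the groups.  Therefore the
function takes the same value at `g` and `g ^ j`, and `avgSpan` is characterised by this property.  For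
the converse one sums the differences of these numbers over the `g` with `g ψ = ψ a`.
-/

set_option autoImplicit false

open NumberField
open Pool.Agent.Results.MP_a2beea_nt.AveragedAndAbelian

namespace Pool.Agent.Results.MP_a2beea_nt.FewAutomorphisms

/-- Linked embeddings have the same image: if `θ(E) ⊆ ψ(E) θ(E⁺)` for two embeddings of `E` into `K`, then
`θ(E) = ψ(E)`. -/
def LinkedSameImage (E K : Type) [Field E] [NumberField E] [Field K] [NumberField K] : Prop :=
  ∀ ψ θ : E →ₐ[ℚ] K,
    θ.fieldRange ≤ ψ.fieldRange ⊔ IntermediateField.adjoin ℚ (θ '' (maximalRealSubfield E : Set E)) →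
      θ.fieldRange = ψ.fieldRange

/-- Every automorphism `a` of `E` is conjugate to `c a`, or to all generators of the group generated by
`a`. -/
def RationalClasses (E : Type) [Field E] [NumberField E] [IsCMField E] : Prop :=
  ∀ a : E ≃ₐ[ℚ] E, IsConj (conjugation E * a) a ∨
    ∀ a' : E ≃ₐ[ℚ] E, Subgroup.zpowers a' = Subgroup.zpowers a → IsConj a' a

/-- The same up to inverses: every automorphism `a` of `E` is conjugate to `c a` or `(c a)⁻¹`, or all
generators of the group generated by `a` are conjugate to `a` or `a⁻¹`. -/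
def RationalClassesInv (E : Type) [Field E] [NumberField E] [IsCMField E] : Prop :=
  ∀ a : E ≃ₐ[ℚ] E, (IsConj (conjugation E * a) a ∨ IsConj (conjugation E * a) a⁻¹) ∨
    ∀ a' : E ≃ₐ[ℚ] E, Subgroup.zpowers a' = Subgroup.zpowers a → IsConj a' a ∨ IsConj a' a⁻¹

/-- **Main result.** -/
theorem result (E : Type) [Field E] [NumberField E] [IsCMField E]
    (K : Type) [Field K] [NumberField K] [IsGalois ℚ K] [IsCMField K] :
    (IsGalois ℚ (maximalRealSubfield E) → LinkedSameImage E K) ∧
    (LinkedSameImage E K → Nonempty (E →ₐ[ℚ] K) →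
      ((∀ Φ : Finset (E →ₐ[ℚ] K), IsCMType Φ → ∀ ψ : E →ₐ[ℚ] K, a0 ψ Φ ∈ avgSpan K) ↔
        RationalClasses E)) ∧
    (LinkedSameImage E K → Nonempty (E →ₐ[ℚ] K) →
      ((∀ Φ : Finset (E →ₐ[ℚ] K), IsCMType Φ → heightFn Φ ∈ avgSpan K) ↔
        RationalClassesInv E)) ∧
    (IsGalois ℚ (maximalRealSubfield E) →
      ((∀ g : maximalRealSubfield E ≃ₐ[ℚ] maximalRealSubfield E, g ^ 2 = 1) ∨
        ∀ g : maximalRealSubfield E ≃ₐ[ℚ] maximalRealSubfield E, g ^ 3 = 1) →
      ∀ Φ : Finset (E →ₐ[ℚ] K), IsCMType Φ → heightFn Φ ∈ avgSpan K) ∧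
    (IsGalois ℚ (maximalRealSubfield E) → (Module.finrank ℚ (maximalRealSubfield E)).Prime →
      ∀ Φ : Finset (E →ₐ[ℚ] K), IsCMType Φ → ∀ ψ : E →ₐ[ℚ] K, a0 ψ Φ ∈ avgSpan K ⊔ abSpan K) :=
  ⟨fun _ ψ θ h => Pool.Agent.N770.CP.range_eq_of_linked ψ θ h,
    fun hL ⟨ψ⟩ => ⟨fun h => Pool.Agent.N770.CP.rat_of_mem hL ψ h,
      fun hR _ hΦ ψ => Pool.Agent.N770.CP.mem_avgSpan hL hR hΦ ψ⟩,
    fun hL ⟨ψ⟩ => ⟨fun h => Pool.Agent.N770.CP.ratInv_of_mem hL ψ h,
      fun hR _ hΦ => Pool.Agent.N770.CP.height_mem_avgSpan hL hR hΦ⟩,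
    fun _ h _ hΦ => Pool.Agent.N770.CP.height_mem_avgSpan
      (fun ψ θ h => Pool.Agent.N770.CP.range_eq_of_linked ψ θ h)
      (Pool.Agent.N770.CP.ratInv_of_exponent h) hΦ,
    fun _ hp _ hΦ ψ => Pool.Agent.N770.CP.prime_degree hp hΦ ψ⟩

end Pool.Agent.Results.MP_a2beea_nt.FewAutomorphisms
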