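import Pool.Agent.Q11.CZ.Main
import Pool.Agent.Results.MP_a2beea_nt.AveragedAndAbelian

/-!
# Colmez's product formula: reduction to the CM types nearest to an imaginary quadratic one

`K` is a CM field, Galois over `ℚ`, which contains an imaginary quadratic field `k`.  The notions
`conjugation`, `act`, `IsCMType`, `a0` (Colmez's function `a⁰_{E,ψ,Φ}`) and `IsCMFunction` are those of
the file `AveragedAndAbelian`.

A CM type of `K` with values in `K` is *unitary* (signature `(n, 0)` over `k`) if all its elements are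
the identity on `k`, and *nearly unitary* (signature `(n, 0)` or `(n - 1, 1)`) if at most one of them is
not.  We show that Colmez's functions `a⁰_{K,id,Φ}` at the **identity embedding** of the nearly unitary
CM types of the **single** field `K` span, together with `1`, the space of all class functions `f` on
`Gal(K/ℚ)` with `f(g) + f(c g)` constant.  So they span with `1` all functions `a⁰_{E,ψ,Φ}` of all CM
types with values in `K`, of all fields `E`: if the refined formula (with `ψ`) holds for the nearly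
unitary types of `K` and `ψ = id`, it holds for all `(E, ψ, Φ)` with values in `K`.
-/

set_option autoImplicit false

open NumberField
open Pool.Agent.Results.MP_a2beea_nt.AveragedAndAbelian

namespace Pool.Agent.Results.MP_a2beea_nt.NearlyUnitaryTypes

variable {K : Type} [Field K] [NumberField K] [IsCMField K]

/-- `Φ` is a CM type of `K`, with values in `K`, with at most one element which is not the identity
on `k`. -/
def NearlyUnitary (k : IntermediateField ℚ K) (Φ : Finset (K →ₐ[ℚ] K)) : Prop :=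
  IsCMType Φ ∧ Nat.card {ψ : K →ₐ[ℚ] K // ψ ∈ Φ ∧ ∃ x ∈ k, ψ x ≠ x} ≤ 1

/-- The span of `1` and of Colmez's functions `a⁰_{K,id,Φ}` of the nearly unitary CM types of `K`. -/
noncomputable def nearSpan (k : IntermediateField ℚ K) : Submodule ℚ ((K ≃ₐ[ℚ] K) → ℚ) :=
  Submodule.span ℚ ({fun _ => 1} ∪ {F | ∃ Φ : Finset (K →ₐ[ℚ] K), NearlyUnitary k Φ ∧
    F = a0 (AlgHom.id ℚ K) Φ})

open scoped Classical in
lemma nearlyUnitary_iff (k : IntermediateField ℚ K) (Φ : Finset (K →ₐ[ℚ] K)) :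
    NearlyUnitary k Φ ↔ Pool.Agent.Q11.CZ.NearK k 1 Φ := by
  unfold NearlyUnitary Pool.Agent.Q11.CZ.NearK
  have h : Nat.card {ψ : K →ₐ[ℚ] K // ψ ∈ Φ ∧ ∃ x ∈ k, ψ x ≠ x} =
      (Φ.filter fun ψ => ¬ ∀ x ∈ k, ψ x = x).card := by
    rw [Nat.card_eq_fintype_card, Fintype.card_subtype]
    congr 1
    ext ψ
    simp
  rw [h]
  rfl

variable [IsGalois ℚ K]

lemma mem_nearSpan (k : IntermediateField ℚ K) (hk : Module.finrank ℚ k = 2)
    [IsTotallyComplex k] (f : (K ≃ₐ[ℚ] K) → ℚ) (hf : IsCMFunction f) : f ∈ nearSpan k := by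
  obtain ⟨h1, s, h2⟩ := hf
  have h3 := Pool.Agent.Q11.CZ.mem_span_one (c := Pool.Agent.Q11.CZ.conj K)
    Pool.Agent.Q11.CZ.conj_mul_self (H := k.fixingSubgroup)
    (Pool.Agent.Q11.CZ.conj_mul_mem k hk) f h1 s h2
  refine Submodule.span_mono ?_ h3
  rintro F (hF | ⟨Φ, hΦ, rfl⟩)
  · exact Or.inl hF
  · right
    refine ⟨Φ.map Pool.Agent.Q11.CZ.regEquiv.toEmbedding,
      (nearlyUnitary_iff k _).mpr (Pool.Agent.Q11.CZ.nearK_map k hΦ), ?_⟩
    rw [a0_eq]
    have h4 := Pool.Agent.Q11.CZ.a0_map (Pool.Agent.Q11.CZ.regEquiv (K := K))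
      Pool.Agent.Q11.CZ.regEquiv_smul 1 Φ
    rw [← h4]
    rfl

/-- A function of the nearly unitary span has the two properties. -/
lemma cm_of_mem (k : IntermediateField ℚ K) (f : (K ≃ₐ[ℚ] K) → ℚ) (hf : f ∈ nearSpan k) :
    IsCMFunction f := by
  unfold nearSpan at hf
  induction hf using Submodule.span_induction with
  | mem F hF =>
    rcases hF with hF | ⟨Φ, hΦ, rfl⟩
    · rw [Set.mem_singleton_iff.mp hF]
      exact ⟨fun _ _ => rfl, 2, fun _ => by norm_num⟩
    · exact a0_cm _ hΦ.1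
  | zero => exact ⟨fun _ _ => rfl, 0, fun _ => by simp⟩
  | add f f' _ _ h h' =>
    obtain ⟨h1, s, hs⟩ := h
    obtain ⟨h1', s', hs'⟩ := h'
    refine ⟨fun g x => ?_, s + s', fun g => ?_⟩
    · simp only [Pi.add_apply, h1 g x, h1' g x]
    · simp only [Pi.add_apply]; linarith [hs g, hs' g]
  | smul r f _ h =>
    obtain ⟨h1, s, hs⟩ := h
    refine ⟨fun g x => ?_, r * s, fun g => ?_⟩
    · simp only [Pi.smul_apply, h1 g x]
    · simp only [Pi.smul_apply, smul_eq_mul]; rw [← hs g]; ring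

/-- **Main result.**  Let `K` be a CM field, Galois over `ℚ`, and let `k ⊆ K` be imaginary quadratic.
(1) The span of `1` and of the functions `a⁰_{K,id,Φ}`, `Φ` a nearly unitary CM type of `K`, is the
space of all class functions `f` on `Gal(K/ℚ)` for which `f(g) + f(c g)` does not depend on `g`.
(2) It contains `a⁰_{E,ψ,Φ}` for every CM type `Φ` with values in `K`, of every number field `E`, and
every `ψ`.
(3) Two `ℚ`-linear functionals on the functions on `Gal(K/ℚ)` which agree at `1` and at the functions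
`a⁰_{K,id,Φ}`, `Φ` nearly unitary, agree at all functions `a⁰_{E,ψ,Φ}` of CM types with values in
`K`. -/
theorem result (K : Type) [Field K] [NumberField K] [IsGalois ℚ K] [IsCMField K]
    (k : IntermediateField ℚ K) [IsTotallyComplex k] (hk : Module.finrank ℚ k = 2) :
    (∀ f : (K ≃ₐ[ℚ] K) → ℚ, f ∈ nearSpan k ↔ IsCMFunction f) ∧
    (∀ (E : Type) [Field E] [NumberField E] (Φ : Finset (E →ₐ[ℚ] K)), IsCMType Φ →
      ∀ ψ : E →ₐ[ℚ] K, a0 ψ Φ ∈ nearSpan k) ∧
    (∀ (V : Type) [AddCommGroup V] [Module ℚ V] (ht Z : ((K ≃ₐ[ℚ] K) → ℚ) →ₗ[ℚ] V),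
      ht (fun _ => 1) = Z (fun _ => 1) →
      (∀ Φ : Finset (K →ₐ[ℚ] K), NearlyUnitary k Φ →
        ht (a0 (AlgHom.id ℚ K) Φ) = Z (a0 (AlgHom.id ℚ K) Φ)) →
      ∀ (E : Type) [Field E] [NumberField E] (Φ : Finset (E →ₐ[ℚ] K)), IsCMType Φ →
        ∀ ψ : E →ₐ[ℚ] K, ht (a0 ψ Φ) = Z (a0 ψ Φ)) := by
  have h1 : ∀ f : (K ≃ₐ[ℚ] K) → ℚ, f ∈ nearSpan k ↔ IsCMFunction f :=
    fun f => ⟨cm_of_mem k f, mem_nearSpan k hk f⟩
  have h2 : ∀ (E : Type) [Field E] [NumberField E] (Φ : Finset (E →ₐ[ℚ] K)), IsCMType Φ →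
      ∀ ψ : E →ₐ[ℚ] K, a0 ψ Φ ∈ nearSpan k := fun E _ _ Φ hΦ ψ => (h1 _).mpr (a0_cm ψ hΦ)
  refine ⟨h1, h2, ?_⟩
  intro V _ _ ht Z hone hnear E _ _ Φ hΦ ψ
  have h3 : nearSpan k ≤ LinearMap.eqLocus ht Z := by
    unfold nearSpan
    rw [Submodule.span_le]
    rintro F (hF | ⟨Ψ, hΨ, rfl⟩)
    · rw [Set.mem_singleton_iff.mp hF]
      exact hone
    · exact hnear Ψ hΨ
  exact h3 (h2 E Φ hΦ ψ)

end Pool.Agent.Results.MP_a2beea_nt.NearlyUnitaryTypes
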