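import Pool.Agent.N770.CP.FieldsRep

/-!
# Colmez's product formula for a single CM field and the characters of the Galois group

`K` is a CM field, Galois over `ℚ` with group `G`, and `E` a number field with an embedding `ψ` into `K`
(`E` has CM types with values in `K` if and only if `E` is a CM field).  The notions `conjugation`, `act`,
`IsCMType`, `a0` (Colmez's function `a⁰_{E,ψ,Φ}`), `heightFn` (`A_Φ = ∑_{ψ ∈ Φ} a⁰_{E,ψ,Φ}`), `avgSpan`
(the span of `1` and of the sums of the `A_Φ` over all CM types of a field: for these the formula is the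
averaged formula of Andreatta, Goren, Howard, Madapusi Pera and of Yuan, Zhang) and `abSpan` (the span
of the `a⁰_{E,ψ,Φ}` of the abelian fields: the case settled by Colmez and Obus) are those of the
starting file `AveragedAndAbelian`, which describes the two spaces and gives conditions on the group of
`K` under which they contain the functions of all CM types with values in `K`.

Here we treat a single field `E`, with all its CM types.  We say that an irreducible complex
representation `ρ` of `G` is *odd* if `ρ(c) = -1` for the complex conjugation `c`, and that it *occurs* in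
`E` if it has a nonzero vector fixed by `Gal(K/ψ(E))`, that is, if it is a constituent of the
permutation representation on `Hom(E, K)`.

Theorem.
(1) `a⁰_{E,θ,Φ}` is in `avgSpan` for all CM types `Φ` of `E` and all `θ` if and only if all odd
irreducible representations of `G` which occur in `E` have rational characters.
(2) `A_Φ` (Faltings heights) is in `avgSpan` for all CM types `Φ` of `E` if and only if the functions
`χ + χ̄` are rational for all characters `χ` of odd irreducible representations which occur in `E`.
(3) `a⁰_{E,θ,Φ}` is in the span of `avgSpan` and `abSpan` for all CM types `Φ` of `E` and all `θ` if and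
only if all odd irreducible representations which occur in `E` have rational characters or
dimension one.
(4) `A_Φ` is in the span of `avgSpan` and `abSpan` for all CM types `Φ` of `E` if and only if for all odd
irreducible representations which occur in `E`, with character `χ`, the function `χ + χ̄` is rational or
the dimension is one.

Here a character is rational (has values in `ℚ`) if and only if it has the same value at `g` and `g'`
whenever `g` and `g'` generate the same subgroup.

So this is exactly what the two known cases of the formula give for a single CM field: the formula holds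
for all CM types of `E` if the odd constituents of `Hom(E, K)` are rational or one-dimensional, and
otherwise the known cases do not imply it by linear algebra.  (An example with a group that does not
satisfy the conditions of the starting file: `E = F k`, `k` imaginary quadratic and `F` of degree five
with group `A₅`; the odd constituents are `ε` and `ε ⊗ χ₄`, while `ε ⊗ χ₃` is not rational.)

The proof.  The differences `δ(ψ, θ)(g)` of the numbers of the `h` with `h⁻¹ g h ψ = θ` and of the `h` with
`h⁻¹ g h ψ = c θ` span, together with `1`, the same space as the functions of the CM types of `E`.  The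
scalar product of `δ(ψ, θ)` with a character `χ` is `2 ∑ χ(u⁻¹)`, sum over the `u` with `u ψ = θ`, if `χ` is
odd, and `0` if `χ` is even; it vanishes for all `θ` if `χ` does not occur; and by Schur's lemma
`∑_k χ(k) δ(ψ, k ψ)` is a nonzero multiple of `χ` if `χ` is odd and occurs.  So the complex span of the
`δ(ψ, θ)` is the span of the odd irreducible characters which occur.
-/

set_option autoImplicit false

open NumberField
open Pool.Agent.Results.MP_a2beea_nt.AveragedAndAbelian

namespace Pool.Agent.Results.MP_a2beea_nt.RationalConstituents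

/-- The function has the same value at elements which generate the same subgroup; for the characters of
a finite group this means that the values are rational. -/
def Rational {G : Type} [Group G] (f : G → ℂ) : Prop :=
  ∀ g g' : G, Subgroup.zpowers g = Subgroup.zpowers g' → f g = f g'

/-- `P χ n` holds for the character `χ` and the dimension `n` of every odd irreducible complex
representation `ρ` of `Gal(K/ℚ)` which occurs in `E`, that is, which has a nonzero vector fixed by all
`g` with `g ψ = ψ`. -/
def ForAllOccurring {E K : Type} [Field E] [NumberField E] [Field K] [NumberField K] [IsCMField K]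
    (ψ : E →ₐ[ℚ] K)
    (P : ((K ≃ₐ[ℚ] K) → ℂ) → ℕ → Prop) : Prop :=
  ∀ (V : Type) [AddCommGroup V] [Module ℂ V] [FiniteDimensional ℂ V]
    (ρ : Representation ℂ (K ≃ₐ[ℚ] K) V), ρ.IsIrreducible → ρ (conjugation K) = -1 →
      (∃ v : V, v ≠ 0 ∧ ∀ g : K ≃ₐ[ℚ] K, act g ψ = ψ → ρ g v = v) →
        P ρ.character (Module.finrank ℂ V)

open scoped Classical in
/-- **Main result.** -/
theorem result (E : Type) [Field E] [NumberField E] [IsCMField E]
    (K : Type) [Field K] [NumberField K] [IsGalois ℚ K] [IsCMField K] (ψ : E →ₐ[ℚ] K) :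
    ((∀ Φ : Finset (E →ₐ[ℚ] K), IsCMType Φ → ∀ θ : E →ₐ[ℚ] K, a0 θ Φ ∈ avgSpan K) ↔
      ForAllOccurring ψ fun χ _ => Rational χ) ∧
    ((∀ Φ : Finset (E →ₐ[ℚ] K), IsCMType Φ → heightFn Φ ∈ avgSpan K) ↔
      ForAllOccurring ψ fun χ _ => Rational fun g => χ g + χ g⁻¹) ∧
    ((∀ Φ : Finset (E →ₐ[ℚ] K), IsCMType Φ → ∀ θ : E →ₐ[ℚ] K, a0 θ Φ ∈ avgSpan K ⊔ abSpan K) ↔
      ForAllOccurring ψ fun χ n => Rational χ ∨ n = 1) ∧
    ((∀ Φ : Finset (E →ₐ[ℚ] K), IsCMType Φ → heightFn Φ ∈ avgSpan K ⊔ abSpan K) ↔
      ForAllOccurring ψ fun χ n => (Rational fun g => χ g + χ g⁻¹) ∨ n = 1) := by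
  refine ⟨?_, ?_, ?_, ?_⟩
  · rw [Pool.Agent.N770.CP.all_a0 ψ _ le_rfl (avgSpan K)
      (fun θ Φ hΦ => Pool.Agent.N770.CP.a0_avg_iff θ hΦ)]
    constructor
    · intro h V _ _ _ ρ h1 h2 h3
      exact h _ ⟨V, _, _, inferInstance, ρ, h1, h2, h3, rfl⟩
    · rintro h χ ⟨V, i1, i2, i3, ρ, h1, h2, h3, rfl⟩
      exact h V ρ h1 h2 h3
  · rw [Pool.Agent.N770.CP.all_height ψ _ le_rfl (avgSpan K)
      (fun Φ hΦ => Pool.Agent.N770.CP.height_avg_iff hΦ)]
    constructor
    · intro h V _ _ _ ρ h1 h2 h3
      exact h _ ⟨V, _, _, inferInstance, ρ, h1, h2, h3, rfl⟩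
    · rintro h χ ⟨V, i1, i2, i3, ρ, h1, h2, h3, rfl⟩
      exact h V ρ h1 h2 h3
  · rw [Pool.Agent.N770.CP.all_a0 ψ _ Pool.Agent.N770.CP.Zc_le_Ac (avgSpan K ⊔ abSpan K)
      (fun θ Φ hΦ => Pool.Agent.N770.CP.a0_ab_iff θ hΦ)]
    constructor
    · intro h V _ _ _ ρ h1 h2 h3
      exact (Pool.Agent.N770.CP.mem_Ac_iff ρ h1).mp
        (h _ ⟨V, _, _, inferInstance, ρ, h1, h2, h3, rfl⟩)
    · rintro h χ ⟨V, i1, i2, i3, ρ, h1, h2, h3, rfl⟩
      exact (Pool.Agent.N770.CP.mem_Ac_iff ρ h1).mpr (h V ρ h1 h2 h3)
  · rw [Pool.Agent.N770.CP.all_height ψ _ Pool.Agent.N770.CP.Zc_le_Ac (avgSpan K ⊔ abSpan K)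
      (fun Φ hΦ => Pool.Agent.N770.CP.height_ab_iff hΦ)]
    constructor
    · intro h V _ _ _ ρ h1 h2 h3
      exact (Pool.Agent.N770.CP.symm_mem_Ac_iff ρ h1).mp
        (h _ ⟨V, _, _, inferInstance, ρ, h1, h2, h3, rfl⟩)
    · rintro h χ ⟨V, i1, i2, i3, ρ, h1, h2, h3, rfl⟩
      exact (Pool.Agent.N770.CP.symm_mem_Ac_iff ρ h1).mpr (h V ρ h1 h2 h3)

end Pool.Agent.Results.MP_a2beea_nt.RationalConstituents
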